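import Mathlib

/-! No large-disorder localization on antitrees when the law has an atom at zero. -/

open MeasureTheory ProbabilityTheory Set Filter Topology
open scoped InnerProductSpace ENNReal

namespace Pool.Agent.Results.MP_be97d8_mp.Counter

/-- vertices of the antitree: shell `n` has `s n` vertices -/
abbrev Vtx (s : ℕ → ℕ) := Σ n : ℕ, Fin (s n)

/-- the Hilbert space -/
noncomputable abbrev L2 (s : ℕ → ℕ) : Type := lp (fun _ : Vtx s => ℂ) 2

/-- edge weights of the antitree -/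
noncomputable def wt (s : ℕ → ℕ) (x y : Vtx s) : ℝ :=
  if x.1 + 1 = y.1 ∨ y.1 + 1 = x.1 then 1 / √((s x.1 : ℝ) * s y.1) else 0

/-- `H` is the Anderson operator with disorder `lam` and potential `v` -/
def IsHam (s : ℕ → ℕ) (lam : ℝ) (v : Vtx s → ℝ) (H : L2 s →L[ℂ] L2 s) : Prop :=
  ∀ (ψ : L2 s) (x : Vtx s), H ψ x = ∑' y, (wt s x y : ℂ) * ψ y + (lam * v x : ℝ) * ψ x

/-- the spectral subspace of `[a, b]` lies in the closed span of the eigenvectors -/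
def PurePoint {K : Type} [NormedAddCommGroup K] [InnerProductSpace ℂ K] [CompleteSpace K]
    (H : K →L[ℂ] K) (a b : ℝ) : Prop :=
  ∀ f : ℝ → ℝ, Continuous f → (∀ t ∉ Icc a b, f t = 0) → ∀ ψ,
    cfc f H ψ ∈ (Submodule.span ℂ {φ | ∃ E : ℂ, H φ = E • φ}).topologicalClosure

variable {s : ℕ → ℕ}

/-- normalised shell sums, shifted by one -/
noncomputable def w (ψ : Vtx s → ℂ) : ℕ → ℂ
  | 0 => 0
  | n + 1 => (∑ i, ψ ⟨n, i⟩) / (√(s n) : ℝ)

lemma w_sq (ψ : Vtx s → ℂ) (n : ℕ) : ‖w ψ (n + 1)‖ ^ 2 ≤ ∑ i, ‖ψ ⟨n, i⟩‖ ^ 2 := by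
  rw [w, norm_div, div_pow, Complex.norm_real, Real.norm_eq_abs, sq_abs,
    Real.sq_sqrt (by positivity)]
  refine div_le_of_le_mul₀ (by positivity) (by positivity) ?_
  refine (pow_le_pow_left₀ (norm_nonneg _) (norm_sum_le _ _) 2).trans
    (sq_sum_le_card_mul_sum_sq.trans_eq ?_)
  simp [mul_comm]

lemma hasSum_sq (f : L2 s) : HasSum (fun x => ‖f x‖ ^ 2) (‖f‖ ^ 2) := by
  simpa using lp.hasSum_norm (p := 2) (by norm_num) f

lemma shell_sum (f : L2 s) : HasSum (fun n => ∑ i, ‖f ⟨n, i⟩‖ ^ 2) (‖f‖ ^ 2) :=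
  (hasSum_sq f).sigma fun _ => hasSum_fintype _

lemma wt_sum (ψ : Vtx s → ℂ) (x : Vtx s) :
    ∑' y, (wt s x y : ℂ) * ψ y = (w ψ x.1 + w ψ (x.1 + 2)) / (√(s x.1) : ℝ) := by
  classical
  obtain ⟨n, i⟩ := x
  have h : ∀ m, ∑ j : Fin (s m), (((1 / √((s n : ℝ) * s m) : ℝ)) : ℂ) * ψ ⟨m, j⟩ =
      w ψ (m + 1) / (√(s n) : ℝ) := fun m => by
    rw [← Finset.mul_sum, w, Real.sqrt_mul (by positivity)]; push_cast; ring
  rw [tsum_eq_sum (s := (Finset.range (n + 2)).sigma fun _ => Finset.univ) fun y hy => by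
    rw [wt, if_neg (by simp at hy; simp only; omega)]; simp, Finset.sum_sigma, Finset.sum_range_succ,
    Finset.sum_range_succ]
  simp only [wt, true_or, if_true, h, Nat.succ_ne_self, or_self, if_false, Complex.ofReal_zero,
    zero_mul, Finset.sum_const_zero, add_zero, add_div]
  congr 1
  rcases n with _ | n
  · simp [w]
  · rw [Finset.sum_range_succ, Finset.sum_eq_zero fun m hm => Finset.sum_eq_zero fun j _ => by
      rw [if_neg (by simp at hm; omega)]; simp]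
    simp only [or_true, if_true, h, zero_add]

lemma exists_ham (hs : ∀ n, 0 < s n) (lam : ℝ) (v : Vtx s → ℝ) (hv : ∀ x, |v x| ≤ 1) :
    ∃ H, IsHam s lam v H ∧ IsSelfAdjoint H := by
  classical
  have key : ∀ ψ : L2 s, ∃ c, HasSum (fun x : Vtx s => ‖∑' y, (wt s x y : ℂ) * ψ y +
      (lam * v x : ℝ) * ψ x‖ ^ 2) c ∧ c ≤ (3 + 3 * |lam|) ^ 2 * ‖ψ‖ ^ 2 := fun ψ => by
    have h1 := shell_sum ψ
    have h2 : HasSum (fun n => if n = 0 then 0 else ∑ i, ‖ψ ⟨n - 1, i⟩‖ ^ 2) (‖ψ‖ ^ 2) :=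
      (hasSum_nat_add_iff' 1).mp (by simpa using h1)
    have h3 := (hasSum_nat_add_iff' 1).mpr h1
    have h4 := ((h2.add h3).add (h1.mul_left (lam ^ 2))).mul_left 3
    have h5 : ∀ n, ∑ i : Fin (s n), ‖∑' y, (wt s ⟨n, i⟩ y : ℂ) * ψ y +
        (lam * v ⟨n, i⟩ : ℝ) * ψ ⟨n, i⟩‖ ^ 2 ≤ 3 * ((if n = 0 then 0 else ∑ i, ‖ψ ⟨n - 1, i⟩‖ ^ 2) +
          ∑ i, ‖ψ ⟨n + 1, i⟩‖ ^ 2 + lam ^ 2 * ∑ i, ‖ψ ⟨n, i⟩‖ ^ 2) := fun n => by
      have h6 : (0 : ℝ) < s n := by exact_mod_cast hs n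
      have h7 : ‖w ψ n‖ ^ 2 ≤ if n = 0 then 0 else ∑ i, ‖ψ ⟨n - 1, i⟩‖ ^ 2 := by
        rcases n with _ | n
        · simp [w]
        · exact w_sq ψ n
      refine (Finset.sum_le_sum (g := fun i => 3 * (‖w ψ n‖ ^ 2 / s n + ‖w ψ (n + 2)‖ ^ 2 / s n +
        lam ^ 2 * ‖ψ ⟨n, i⟩‖ ^ 2)) fun i _ => ?_).trans ?_
      · rw [wt_sum, add_div]
        refine (pow_le_pow_left₀ (norm_nonneg _) norm_add₃_le 2).trans ?_
        have h8 : ‖((lam * v ⟨n, i⟩ : ℝ) : ℂ) * ψ ⟨n, i⟩‖ ^ 2 ≤ lam ^ 2 * ‖ψ ⟨n, i⟩‖ ^ 2 := by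
          rw [norm_mul, mul_pow, Complex.norm_real, Real.norm_eq_abs, sq_abs, mul_pow]
          have := (sq_le_one_iff_abs_le_one _).mpr (hv ⟨n, i⟩)
          nlinarith [mul_nonneg (sq_nonneg lam) (sq_nonneg ‖ψ ⟨n, i⟩‖)]
        have h9 : ∀ z : ℂ, ‖z‖ ^ 2 / s n = ‖z / (√(s n) : ℝ)‖ ^ 2 := fun z => by
          rw [norm_div, div_pow, Complex.norm_real, Real.norm_eq_abs, sq_abs, Real.sq_sqrt h6.le]
        rw [h9, h9]
        generalize ‖w ψ n / (√(s n) : ℝ)‖ = x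
        generalize ‖w ψ (n + 2) / (√(s n) : ℝ)‖ = y
        generalize ‖((lam * v ⟨n, i⟩ : ℝ) : ℂ) * ψ ⟨n, i⟩‖ = z at h8 ⊢
        nlinarith [sq_nonneg (x - y), sq_nonneg (x - z), sq_nonneg (y - z)]
      · simp only [← Finset.mul_sum, Finset.sum_add_distrib, Finset.sum_const, Finset.card_univ,
          Fintype.card_fin, nsmul_eq_mul, mul_div_cancel₀ _ h6.ne']
        linarith [w_sq ψ (n + 1)]
    have h6 : Summable fun x : Vtx s => ‖∑' y, (wt s x y : ℂ) * ψ y +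
        (lam * v x : ℝ) * ψ x‖ ^ 2 := (summable_sigma_of_nonneg fun _ => by positivity).mpr
      ⟨fun _ => (hasSum_fintype _).summable, h4.summable.of_nonneg_of_le (fun _ => by positivity)
        fun n => by rw [tsum_fintype]; exact h5 n⟩
    refine ⟨_, h6.hasSum, (hasSum_le h5 (h6.hasSum.sigma fun _ => hasSum_fintype _) h4).trans ?_⟩
    have h7 : 0 ≤ ∑ i ∈ Finset.range 1, ∑ j : Fin (s i), ‖ψ ⟨i, j⟩‖ ^ 2 := by positivity
    rw [← sq_abs lam]
    nlinarith [mul_nonneg (abs_nonneg lam) (sq_nonneg ‖ψ‖), mul_nonneg (sq_nonneg |lam|)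
      (sq_nonneg ‖ψ‖), sq_nonneg ‖ψ‖]
  obtain ⟨T, hT⟩ : ∃ T : L2 s →ₗ[ℂ] L2 s, ∀ (ψ : L2 s) x,
      T ψ x = ∑' y, (wt s x y : ℂ) * ψ y + (lam * v x : ℝ) * ψ x :=
   ⟨{ toFun := fun ψ => ⟨fun x => ∑' y, (wt s x y : ℂ) * ψ y + (lam * v x : ℝ) * ψ x,
        memℓp_gen (by simpa using (key ψ).choose_spec.1.summable)⟩
      map_add' := fun φ ψ => lp.ext (funext fun ⟨n, i⟩ => by
        simp only [lp.coeFn_add, Pi.add_apply, wt_sum]
        rcases n with _ | n <;> simp only [w, Pi.add_apply, Finset.sum_add_distrib] <;> ring)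
      map_smul' := fun c ψ => lp.ext (funext fun ⟨n, i⟩ => by
        simp only [lp.coeFn_smul, Pi.smul_apply, wt_sum, RingHom.id_apply, smul_eq_mul]
        rcases n with _ | n <;> simp only [w, Pi.smul_apply, smul_eq_mul, ← Finset.mul_sum] <;>
          ring) }, fun _ _ => rfl⟩
  obtain ⟨H, hH⟩ : ∃ H, IsHam s lam v H := ⟨T.mkContinuous (3 + 3 * |lam|) fun ψ => by
      obtain ⟨c, h1, h2⟩ := key ψ
      refine (sq_le_sq₀ (norm_nonneg _) (by positivity)).mp ?_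
      simp only [← hT] at h1
      rw [mul_pow, (hasSum_sq _).unique h1]
      exact h2, hT⟩
  refine ⟨H, hH, ?_⟩
  have h1 : ∀ x y, H (lp.single 2 y 1) x = wt s x y + if x = y then ((lam * v x : ℝ) : ℂ) else 0 :=
    fun x y => by
      rw [hH, tsum_eq_single y fun z hz => by simp [lp.single_apply, hz]]
      simp [lp.single_apply, Pi.single_apply]
  refine lp.ext_continuousLinearMap (by simp) fun y => ContinuousLinearMap.ext_ring
    (lp.ext (funext fun x => ?_))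
  have h2 : ∀ f : L2 s, f x = ⟪lp.single 2 x (1 : ℂ), f⟫_ℂ := fun f => by
    rw [lp.inner_single_left]; simp
  change (ContinuousLinearMap.adjoint H) (lp.single 2 y 1) x = H (lp.single 2 y 1) x
  rw [h2, ContinuousLinearMap.adjoint_inner_right, lp.inner_single_right, h1, h1]
  by_cases h : x = y
  · simp [h]
  · simp [h, Ne.symm h, wt, or_comm, mul_comm]

lemma rec_zero {u m : ℕ → ℝ} {μ : ℝ} (hμ : 9 / 10 ≤ μ)
    (hm : ∀ n, ∑ k ∈ Finset.range n, |m k - μ| ≤ 1 / 5)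
    (h : ∀ n, u (n + 1) = m n * (u n + u (n + 2))) (hu : Tendsto u atTop (𝓝 0)) (n : ℕ) :
    u n = 0 := by
  have h1 : ∀ n, 2 / 5 * (u n ^ 2 + u (n + 1) ^ 2) ≤
      μ * (u n ^ 2 + u (n + 1) ^ 2) - u n * u (n + 1) := fun n => by
    nlinarith [sq_nonneg (u n - u (n + 1)), sq_nonneg (u n), sq_nonneg (u (n + 1))]
  obtain ⟨Q, hQ⟩ : ∃ Q : ℕ → ℝ, ∀ n, Q n = μ * (u n ^ 2 + u (n + 1) ^ 2) - u n * u (n + 1) :=
    ⟨_, fun _ => rfl⟩
  simp only [← hQ] at h1
  have h2 : ∀ n, Q (n + 1) - Q n = (μ - m n) * (u (n + 2) ^ 2 - u n ^ 2) := fun n => by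
    rw [hQ, hQ, show n + 1 + 1 = n + 2 from rfl]
    linear_combination (u n - u (n + 2)) * h n
  have h0 : ∀ n, 0 ≤ Q n := fun n => le_trans (by positivity) (h1 n)
  have h3 : ∀ j k, Q j * (1 - 5 / 2 * ∑ i ∈ Finset.range (j + k), |m i - μ|) ≤ Q (j + k) := by
    intro j k
    induction k with
    | zero =>
      rw [add_zero]
      nlinarith [mul_nonneg (h0 j) (Finset.sum_nonneg fun i (_ : i ∈ Finset.range j) =>
        abs_nonneg (m i - μ))]
    | succ k ih =>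
      have h4 := hm (j + k + 1)
      rw [← add_assoc, Finset.sum_range_succ] at *
      have h5 := h2 (j + k)
      have h6 := abs_nonneg (m (j + k) - μ)
      have h7 : 0 ≤ ∑ i ∈ Finset.range (j + k), |m i - μ| := by positivity
      have h8 : Q (j + k) * (1 - 5 / 2 * |m (j + k) - μ|) ≤ Q (j + k + 1) := by
        by_contra! h9
        have h10 := h1 (j + k)
        have h11 := h1 (j + k + 1)
        rcases abs_cases (m (j + k) - μ) with ⟨e, -⟩ | ⟨e, -⟩ <;>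
        nlinarith [sq_nonneg (u (j + k)), sq_nonneg (u (j + k + 1)), sq_nonneg (u (j + k + 2)),
          h0 (j + k), mul_nonneg h6 (h0 (j + k))]
      nlinarith [mul_le_mul_of_nonneg_right ih (show 0 ≤ 1 - 5 / 2 * |m (j + k) - μ| by linarith),
        mul_nonneg (h0 j) (mul_nonneg h6 h7)]
  have h4 : Tendsto Q atTop (𝓝 0) := by
    have h5 := hu.comp (tendsto_add_atTop_nat 1)
    simpa [← hQ] using (((hu.pow 2).add (h5.pow 2)).const_mul μ).sub (hu.mul h5)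
  have h5 : Q n / 2 ≤ 0 := ge_of_tendsto' (h4.comp (tendsto_add_atTop_nat n)) fun k => by
    have := h3 n k
    rw [add_comm] at this
    simp only [Function.comp]
    nlinarith [hm (k + n), h0 n]
  nlinarith [h1 n, sq_nonneg (u n), sq_nonneg (u (n + 1))]

lemma solve (hs : ∀ n, 0 < s n) {lam : ℝ} (hl : 2 ≤ lam) {v : Vtx s → ℝ}
    (hv : ∀ x, v x = 0 ∨ v x = 1 ∨ v x = -1)
    (h1 : ∀ n, |(∑ i, v ⟨n, i⟩) / s n| ≤ (1 / 2) ^ n / 60)
    (h2 : ∀ n, |(∑ i, v ⟨n, i⟩ ^ 2) / s n - 1 / 2| ≤ (1 / 2) ^ n / 60) {H : L2 s →L[ℂ] L2 s}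
    (hH : IsHam s lam v H) {E : ℝ} (hE : E ∈ Icc (1 / 4 : ℝ) (1 / 2)) (φ : L2 s) (c : ℂ)
    (h : ∀ x, H φ x = E * φ x - if x.1 = 0 then c / (√(s 0) : ℝ) else 0) : c = 0 ∧ φ = 0 := by
  obtain ⟨hE1, hE2⟩ := hE
  have hD : 0 < lam ^ 2 - E ^ 2 := by nlinarith
  obtain ⟨u, hu0, hu⟩ : ∃ u : ℕ → ℂ, u 0 = c ∧ ∀ n, u (n + 1) = w φ (n + 1) :=
    ⟨fun n => Nat.casesOn n c fun n => w φ (n + 1), rfl, fun _ => rfl⟩
  have h3 : ∀ n i, φ ⟨n, i⟩ = ((1 / E - lam / (lam ^ 2 - E ^ 2) * v ⟨n, i⟩ -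
      (E / (lam ^ 2 - E ^ 2) + 1 / E) * v ⟨n, i⟩ ^ 2 : ℝ) : ℂ) *
        ((u n + u (n + 2)) / (√(s n) : ℝ)) := fun n i => by
    have h4 := h ⟨n, i⟩
    rw [hH, wt_sum] at h4
    have h5 : (u n + u (n + 2)) / (√(s n) : ℝ) = ((E - lam * v ⟨n, i⟩ : ℝ) : ℂ) * φ ⟨n, i⟩ := by
      rcases n with _ | n
      · simp only [w, if_true, zero_add] at h4
        rw [hu0, hu, w]; push_cast at h4 ⊢; linear_combination h4
      · simp only [Nat.succ_ne_zero, if_false] at h4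
        rw [hu, hu]; push_cast at h4 ⊢; linear_combination h4
    rw [h5, ← mul_assoc, ← Complex.ofReal_mul, show (1 / E - lam / (lam ^ 2 - E ^ 2) * v ⟨n, i⟩ -
      (E / (lam ^ 2 - E ^ 2) + 1 / E) * v ⟨n, i⟩ ^ 2) * (E - lam * v ⟨n, i⟩) = 1 by
        have : E ≠ 0 := by linarith
        rcases hv ⟨n, i⟩ with e | e | e <;> rw [e] <;> field_simp <;> ring]
    simp
  obtain ⟨m, hm⟩ : ∃ m : ℕ → ℝ, ∀ n, m n = 1 / E - lam / (lam ^ 2 - E ^ 2) *
    ((∑ i, v ⟨n, i⟩) / s n) - (E / (lam ^ 2 - E ^ 2) + 1 / E) * ((∑ i, v ⟨n, i⟩ ^ 2) / s n) :=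
    ⟨_, fun _ => rfl⟩
  have h4 : ∀ n, u (n + 1) = m n * (u n + u (n + 2)) := fun n => by
    have h5 : (0 : ℝ) < s n := by exact_mod_cast hs n
    rw [hu, w]
    simp only [h3 n, ← Finset.sum_mul, ← Complex.ofReal_sum, Finset.sum_sub_distrib,
      ← Finset.mul_sum, Finset.sum_const, Finset.card_univ, Fintype.card_fin, nsmul_eq_mul]
    rw [mul_div_assoc, div_div, ← Complex.ofReal_mul, Real.mul_self_sqrt h5.le, mul_div_left_comm,
      ← Complex.ofReal_div, mul_comm]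
    congr 2
    rw [hm]; field_simp
  have h5 : lam / (lam ^ 2 - E ^ 2) ≤ 1 := by rw [div_le_one hD]; nlinarith
  have h6 : E / (lam ^ 2 - E ^ 2) ≤ 1 / 5 := by rw [div_le_iff₀ hD]; nlinarith
  have h7 : 1 / E ≤ 4 := by rw [div_le_iff₀ (by linarith)]; linarith
  have h8 : 2 ≤ 1 / E := by rw [le_div_iff₀ (by linarith)]; linarith
  have h9 : ∀ n, ∑ k ∈ Finset.range n, |m k - (1 / E - E / (lam ^ 2 - E ^ 2)) / 2| ≤ 1 / 5 := by
    refine fun n => (Finset.sum_le_sum (g := fun k => (1 / 2) ^ k / 10) fun k _ => ?_).trans ?_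
    · have p1 : 0 ≤ lam / (lam ^ 2 - E ^ 2) := by positivity
      have p2 : 0 ≤ E / (lam ^ 2 - E ^ 2) := by positivity
      have p3 := abs_le.mp (h1 k)
      have p4 := abs_le.mp (h2 k)
      rw [hm, abs_le]
      constructor <;> nlinarith
    · rw [← Finset.sum_div]
      linarith [sum_geometric_two_le n]
  have h10 : Tendsto u atTop (𝓝 0) := by
    rw [← tendsto_add_atTop_iff_nat 1, tendsto_zero_iff_norm_tendsto_zero]
    have := (shell_sum φ).summable.tendsto_atTop_zero.sqrt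
    rw [Real.sqrt_zero] at this
    exact squeeze_zero (fun _ => norm_nonneg _) (fun n => Real.le_sqrt_of_sq_le
      (by rw [hu]; exact w_sq φ n)) this
  have h11 : ∀ n, u n = 0 := fun n => Complex.ext
    (rec_zero (u := fun n => (u n).re) (by linarith) h9 (fun n => by rw [h4]; simp)
      ((Complex.continuous_re.tendsto 0).comp h10) n)
    (rec_zero (u := fun n => (u n).im) (by linarith) h9 (fun n => by rw [h4]; simp)
      ((Complex.continuous_im.tendsto 0).comp h10) n)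
  exact ⟨hu0.symm.trans (h11 0), lp.ext (funext fun ⟨n, i⟩ => by simp [h3 n i, h11])⟩

lemma not_pp {K : Type} [NormedAddCommGroup K] [InnerProductSpace ℂ K] [CompleteSpace K]
    {H : K →L[ℂ] K} (hH : IsSelfAdjoint H) {a b E : ℝ} (hE : E ∈ Ioo a b)
    (h1 : E ∈ spectrum ℝ H) (h2 : ∀ t ∈ Icc a b, ∀ φ, H φ = (t : ℂ) • φ → φ = 0) :
    ¬PurePoint H a b := by
  intro h
  obtain ⟨f, hf⟩ : ∃ f : ℝ → ℝ, f = fun t => max 0 ((t - a) * (b - t)) := ⟨_, rfl⟩
  have hc : Continuous f := by rw [hf]; fun_prop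
  have h0 : ∀ t ∉ Icc a b, f t = 0 := fun t ht => by
    rw [hf]
    refine max_eq_left ?_
    rcases not_and_or.mp ht with h | h <;> nlinarith [hE.1, hE.2, not_le.mp h]
  have h3 : (Submodule.span ℂ {φ | ∃ E : ℂ, H φ = E • φ}).topologicalClosure ≤
      (cfc f H).ker := by
    refine Submodule.topologicalClosure_minimal _ (Submodule.span_le.mpr ?_)
      (ContinuousLinearMap.isClosed_ker _)
    rintro φ ⟨z, hz⟩
    rcases eq_or_ne φ 0 with rfl | hφ
    · exact zero_mem _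
    have h4 := Complex.conj_eq_iff_re.mp (hH.isSymmetric.conj_eigenvalue_eq_self
      (Module.End.hasEigenvalue_of_hasEigenvector (x := φ) (μ := z)
        ⟨Module.End.mem_eigenspace_iff.mpr hz, hφ⟩))
    rw [← h4] at hz
    generalize z.re = t at hz
    have h5 : t ∉ Icc a b := fun ht => hφ (h2 t ht φ hz)
    have h6 : ∀ x, max |x - t| (Metric.infDist t (Icc a b)) ≠ 0 := fun x =>
      (lt_max_of_lt_right ((isClosed_Icc.notMem_iff_infDist_pos
        ⟨E, hE.1.le, hE.2.le⟩).mp h5)).ne'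
    have h7 : f = fun x => f x * (x - t) / max |x - t| (Metric.infDist t (Icc a b)) ^ 2 *
        (x - t) := funext fun x => by
      by_cases hx : x ∈ Icc a b
      · have h8 : Metric.infDist t (Icc a b) ≤ |x - t| := by
          rw [abs_sub_comm]; exact Metric.infDist_le_dist_of_mem hx
        have h9 := h6 x
        rw [max_eq_left h8] at h9 ⊢
        rw [sq_abs]
        field_simp [abs_ne_zero.mp h9]
      · simp [h0 x hx]
    have h8 : Continuous fun x => f x * (x - t) / max |x - t| (Metric.infDist t (Icc a b)) ^ 2 :=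
      Continuous.div (by fun_prop) (by fun_prop) fun x => pow_ne_zero _ (h6 x)
    change cfc f H φ = 0
    rw [h7, cfc_mul _ _ H h8.continuousOn, cfc_sub (fun x : ℝ => x) (fun _ => t) H, cfc_id' ℝ H,
      cfc_const t H, ContinuousLinearMap.mul_apply, ContinuousLinearMap.sub_apply, hz,
      Algebra.algebraMap_eq_smul_one]
    simp
  have h4 : cfc (fun t => f t * f t) H = cfc (fun _ : ℝ => (0 : ℝ)) H := by
    rw [cfc_mul f f H, cfc_const_zero]
    exact ContinuousLinearMap.ext fun ψ => h3 (h f hc h0 ψ)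
  have h5 := eqOn_of_cfc_eq_cfc h4 (by fun_prop) (by fun_prop) hH h1
  have h6 : 0 < f E := by rw [hf]; exact lt_max_of_lt_right (by nlinarith [hE.1, hE.2])
  exact absurd h5 (mul_pos h6 h6).ne'

lemma cheb (μ : Measure ℝ) [IsProbabilityMeasure μ] {g : ℝ → ℝ} (hg : Measurable g)
    (hb : ∀ᵐ t ∂μ, g t ∈ Icc (-1 : ℝ) 1) (n : ℕ) (hs : 0 < s n) {c : ℝ} (hc : 0 < c) :
    Measure.infinitePi (fun _ : Vtx s => μ) {v | c ≤ |(∑ i, g (v ⟨n, i⟩)) / s n - ∫ t, g t ∂μ|} ≤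
      ENNReal.ofReal (1 / (s n * c ^ 2)) := by
  have h0 : (0 : ℝ) < s n := by exact_mod_cast hs
  have h1 := fun x => measurePreserving_eval_infinitePi (fun _ : Vtx s => μ) x
  have h2 : ∀ x, ∀ᵐ v ∂Measure.infinitePi fun _ : Vtx s => μ, g (v x) ∈ Icc (-1 : ℝ) 1 := fun x =>
    (h1 x).quasiMeasurePreserving.ae hb
  have h3 : ∀ x, MemLp (fun v : Vtx s → ℝ => g (v x)) 2 (Measure.infinitePi fun _ => μ) := fun x =>
    memLp_of_bounded (h2 x) (hg.comp (measurable_pi_apply x)).aestronglyMeasurable 2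
  have h4 := meas_ge_le_variance_div_sq (memLp_finsetSum' Finset.univ fun i _ => h3 ⟨n, i⟩)
    (mul_pos h0 hc)
  rw [IndepFun.variance_sum (fun i _ => h3 ⟨n, i⟩) fun i _ j _ hij =>
    (iIndepFun_infinitePi (X := fun _ => g) fun _ => hg).indepFun (by simpa using hij)] at h4
  refine le_trans (measure_mono fun v hv => ?_) (h4.trans (ENNReal.ofReal_le_ofReal ?_))
  · have h5 : ∀ x, ∫ v, g (v x) ∂Measure.infinitePi (fun _ : Vtx s => μ) = ∫ t, g t ∂μ := fun x => by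
      conv_rhs => rw [← (h1 x).map_eq, integral_map (measurable_pi_apply x).aemeasurable
        hg.aestronglyMeasurable]
    simp only [mem_ofPred_eq, Finset.sum_apply] at hv ⊢
    rw [integral_finsetSum _ fun i _ => (h3 ⟨n, i⟩).integrable one_le_two]
    simp only [h5, Finset.sum_const, Finset.card_univ, Fintype.card_fin, nsmul_eq_mul]
    rwa [← le_div_iff₀' h0, ← abs_of_pos h0, ← abs_div, abs_of_pos h0, sub_div,
      mul_div_cancel_left₀ _ h0.ne']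
  · rw [div_le_div_iff₀ (by positivity) (by positivity)]
    refine (mul_le_mul_of_nonneg_right (Finset.sum_le_sum (g := fun _ => (1 : ℝ)) fun i _ =>
      (variance_le_sq_of_bounded (h2 _) (h3 _).aemeasurable).trans_eq (by norm_num))
        (by positivity)).trans_eq ?_
    simp; ring

theorem result : ∃ μ : Measure ℝ, IsProbabilityMeasure μ ∧ μ (Icc (-1) 1)ᶜ = 0 ∧
    ∫ t, t ∂μ = 0 ∧ 0 < ∫ t, t ^ 2 ∂μ ∧ ∫ t, t ^ 2 ∂μ ≤ 1 ∧ ∃ s : ℕ → ℕ, (∀ n, 0 < s n) ∧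
      ∃ a b : ℝ, a < b ∧ ∀ lam : ℝ, 2 ≤ lam → ∃ G, MeasurableSet G ∧
        0 < Measure.infinitePi (fun _ : Vtx s => μ) G ∧
          ∀ v ∈ G, ∃ H, IsHam s lam v H ∧ IsSelfAdjoint H ∧ ¬PurePoint H a b := by
  obtain ⟨μ, hμ⟩ : ∃ μ : Measure ℝ, μ = (2⁻¹ : ℝ≥0∞) • Measure.dirac 0 +
    ((4⁻¹ : ℝ≥0∞) • Measure.dirac 1 + (4⁻¹ : ℝ≥0∞) • Measure.dirac (-1)) := ⟨_, rfl⟩
  have hi : ∀ g : ℝ → ℝ, ∫ t, g t ∂μ = g 0 / 2 + (g 1 / 4 + g (-1) / 4) := fun g => by
    have h : ∀ (c : ℝ≥0∞) (x : ℝ), c ≠ ∞ → Integrable g (c • Measure.dirac x) := fun c x hc =>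
      (integrable_dirac (by simp)).smul_measure hc
    rw [hμ, integral_add_measure (h _ _ (by simp)) ((h _ _ (by simp)).add_measure (h _ _ (by simp))),
      integral_add_measure (h _ _ (by simp)) (h _ _ (by simp))]
    simp [div_eq_inv_mul]
  have hP : IsProbabilityMeasure μ := ⟨by
    rw [hμ, show (4 : ℝ≥0∞) = 2 * 2 by norm_num, ENNReal.mul_inv (by simp) (by simp)]
    simp [← mul_add, ENNReal.inv_two_add_inv_two]⟩
  have hae : ∀ p : ℝ → Prop, p 0 → p 1 → p (-1) → ∀ᵐ t ∂μ, p t := fun p h0 h1 h2 => by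
    rw [hμ, ae_add_measure_iff, ae_add_measure_iff]
    exact ⟨Measure.ae_smul_measure (by simpa) _, Measure.ae_smul_measure (by simpa) _,
      Measure.ae_smul_measure (by simpa) _⟩
  obtain ⟨s, hs'⟩ : ∃ s : ℕ → ℕ, ∀ n, (s n : ℝ) = 30000 * 8 ^ n :=
    ⟨fun n => 30000 * 8 ^ n, fun n => by push_cast; rfl⟩
  have hs : ∀ n, 0 < s n := fun n => by
    have : (0 : ℝ) < s n := by rw [hs']; positivity
    exact_mod_cast this
  refine ⟨μ, hP, hae (· ∈ Icc (-1) 1) (by norm_num) (by norm_num) (by norm_num), by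
    rw [hi fun t => t]; norm_num, by rw [hi fun t => t ^ 2]; norm_num, by
    rw [hi fun t => t ^ 2]; norm_num, s, hs, 1 / 4, 1 / 2, by norm_num,
    fun lam hl => ?_⟩
  obtain ⟨B, hB⟩ : ∃ B : (ℝ → ℝ) → Set (Vtx s → ℝ), B = fun g => ⋃ n : ℕ,
    {v | ((1 : ℝ) / 2) ^ n / 60 ≤ |(∑ i, g (v ⟨n, i⟩)) / (s n : ℝ) - ∫ t, g t ∂μ|} := ⟨_, rfl⟩
  have hB1 : ∀ g, Measurable g → MeasurableSet (B g) := fun g hg => by
    rw [hB]; exact MeasurableSet.iUnion fun n => measurableSet_le (by fun_prop) (by fun_prop)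
  have hB2 : ∀ g, Measurable g → (∀ᵐ t ∂μ, g t ∈ Icc (-1 : ℝ) 1) →
      Measure.infinitePi (fun _ : Vtx s => μ) (B g) ≤ ENNReal.ofReal (1 / 4) := fun g hg hb => by
    rw [hB]
    refine (measure_iUnion_le _).trans ((ENNReal.tsum_le_tsum fun n =>
      (cheb μ hg hb n (hs n) (by positivity)).trans (ENNReal.ofReal_le_ofReal
        (show _ ≤ 1 / 4 / 2 / 2 ^ n from ?_))).trans_eq ?_)
    · rw [hs', div_div, div_div, div_pow, ← pow_mul, pow_mul']
      refine one_div_le_one_div_of_le (by positivity) ?_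
      rw [show (8 : ℝ) ^ n = 2 ^ n * 4 ^ n by rw [← mul_pow]; norm_num, mul_div_assoc', mul_assoc,
        mul_assoc, ← mul_pow]
      norm_num
      nlinarith [pow_pos (show (0 : ℝ) < 2 by norm_num) n]
    · rw [← ENNReal.ofReal_tsum_of_nonneg (fun _ => by positivity) (summable_geometric_two' _),
        tsum_geometric_two']
  have hZ : MeasurableSet {v : Vtx s → ℝ | ∀ x, v x = 0 ∨ v x = 1 ∨ v x = -1} := by measurability
  refine ⟨{v | ∀ x, v x = 0 ∨ v x = 1 ∨ v x = -1} ∩ (B (fun t => t) ∪ B fun t => t ^ 2)ᶜ,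
    hZ.inter ((hB1 _ measurable_id').union (hB1 _ (by fun_prop))).compl, ?_, fun v hv => ?_⟩
  · have hae' : ∀ᵐ v ∂Measure.infinitePi (fun _ : Vtx s => μ),
        v ∈ {v : Vtx s → ℝ | ∀ x, v x = 0 ∨ v x = 1 ∨ v x = -1} := ae_all_iff.mpr fun x =>
      (measurePreserving_eval_infinitePi (fun _ : Vtx s => μ) x).quasiMeasurePreserving.ae
        (hae (fun t => t = 0 ∨ t = 1 ∨ t = -1) (by simp) (by simp) (by simp))
    rw [Measure.measure_inter_eq_of_ae hae',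
      prob_compl_eq_one_sub ((hB1 _ measurable_id').union (hB1 _ (by fun_prop))), tsub_pos_iff_lt]
    refine ((measure_union_le _ _).trans (add_le_add (hB2 _ measurable_id' (hae _ ?_ ?_ ?_))
      (hB2 _ (by fun_prop) (hae _ ?_ ?_ ?_)))).trans_lt ?_ <;> try norm_num
    rw [← ENNReal.ofReal_add (by norm_num) (by norm_num)]
    exact ENNReal.ofReal_lt_one.mpr (by norm_num)
  · obtain ⟨hv1, hv2⟩ := hv
    simp only [hB, compl_union, compl_iUnion, mem_inter_iff, mem_iInter, mem_compl_iff,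
      mem_ofPred_eq, not_le, hi] at hv2
    obtain ⟨H, h1, h2⟩ := exists_ham hs lam v fun x => by
      rcases hv1 x with e | e | e <;> simp [e]
    have key := fun E hE => solve hs hl hv1 (fun n => le_trans (by norm_num) (hv2.1 n).le)
      (fun n => le_trans (by norm_num) (hv2.2 n).le) h1 (E := E) hE
    refine ⟨H, h1, h2, not_pp h2 (E := 1 / 3) (by norm_num) ?_ fun t ht φ hφ =>
      (key t ht φ 0 fun x => by rw [hφ, lp.coeFn_smul]; simp).2⟩
    classical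
    intro h3
    obtain ⟨u, hu⟩ := h3
    refine one_ne_zero (key (1 / 3) (by norm_num) ((↑u⁻¹ : L2 s →L[ℂ] L2 s)
      (∑ i : Fin (s 0), lp.single 2 ⟨0, i⟩ (1 / (√(s 0) : ℝ)))) 1 fun x => ?_).1
    generalize hg : (∑ i : Fin (s 0), lp.single 2 ⟨0, i⟩ (1 / (√(s 0) : ℝ)) : L2 s) = g
    have h4 : g x = if x.1 = 0 then 1 / ((√(s 0) : ℝ) : ℂ) else 0 := by
      obtain ⟨n, i⟩ := x
      rw [← hg, lp.coeFn_sum, Finset.sum_apply]
      rcases n with _ | n <;> simp [lp.single_apply, Pi.single_apply]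
    have h5 := congrArg (fun T : L2 s →L[ℂ] L2 s => T g x) u.mul_inv
    simp only [hu, ContinuousLinearMap.mul_apply, ContinuousLinearMap.sub_apply,
      Algebra.algebraMap_eq_smul_one, ContinuousLinearMap.smul_apply, ContinuousLinearMap.one_apply,
      lp.coeFn_sub, lp.coeFn_smul, Pi.sub_apply, Pi.smul_apply, Complex.real_smul] at h5
    rw [← h4, ← h5]
    ring

end Pool.Agent.Results.MP_be97d8_mp.Counter
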